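import Pool.Agent.TH90.Zet.Cont
import Pool.Agent.TH90.Zet.Rank
import Pool.Agent.TH90.Zet.Uniq

/-!
# Orders of zeta functions at one integer and ranks of higher Chow groups

`IsCont X F` (`Pool.Agent.TH26.Zeta`) says that `F` is meromorphic on the complex plane and equal to
the Euler product `zetaProd X` over the closed points of `X` on some right half-plane. This side is
unconditional; for the higher Chow groups a list of known formal properties is used.
-/

set_option autoImplicit false

open CategoryTheory AlgebraicGeometry Pool.Agent.TH26.Zeta Pool.Agent.TH90.Cub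
  Pool.Agent.TH90.Zet

namespace Pool.Agent.Results.MP_f3836a_nt.GateComplements

/-- The formal properties used of the higher Chow groups `CH w i X = CH_w(X, i)` (cycles of
dimension `w + i` on `X × Δ^i`) of arithmetic schemes `X` (separated and of finite type over `ℤ`):
they only depend on `X` up to isomorphism, vanish for the empty scheme, there are localisation
sequences `… → CH_w(X \ Z, i + 1) → CH_w(Z, i) → CH_w(X, i) → CH_w(X \ Z, i) → … → CH_w(X \ Z, 0) → 0`
for closed `Z ⊆ X`. If `X` is regular and connected of dimension `d`, then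
`CH_0(X, i) ⊗ ℚ = CH^d(X, i) ⊗ ℚ = H^{2d - i}(X, ℚ(d))`. -/
structure HigherChow where
  CH : ℤ → ℕ → Scheme.{0} → Type
  grp : ∀ w i X, AddCommGroup (CH w i X)
  iso : ∀ (w : ℤ) (i : ℕ) {X Y : Scheme.{0}} (_ : X ≅ Y) (g : Y ⟶ Spec (CommRingCat.of ℤ)),
    FT True ℤ g → Nonempty (CH w i X ≃+ CH w i Y)
  empty : ∀ (w : ℤ) (i : ℕ) (X : Scheme.{0}), IsEmpty X → Subsingleton (CH w i X)
  localization : ∀ {Z X U : Scheme.{0}} (f : X ⟶ Spec (CommRingCat.of ℤ)) (i : Z ⟶ X)
    (j : U ⟶ X), FT True ℤ f → IsClosedImmersion i → IsOpenImmersion j →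
    Set.range i = (Set.range j)ᶜ → ∀ w : ℤ,
    Nonempty (LES (fun n => CH w n Z) (fun n => CH w n X) (fun n => CH w n U))

attribute [instance] HigherChow.grp

/-- The conjecture for `X` at the integer `w`: the zeta function of `X` has a meromorphic
continuation `F` to the complex plane, the groups `CH_w(X, i)` have finite rank, almost all of them
rank `0`, and the order of `F` at `w` is minus the alternating sum of these ranks. -/
def HigherChow.Holds (T : HigherChow) (w : ℤ) (X : Scheme.{0}) : Prop :=
  ∃ F : ℂ → ℂ, IsCont X F ∧ ∃ χ : ℤ, Euler (fun i => T.CH w i X) χ ∧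
    meromorphicOrderAt F (w : ℂ) = ((-χ : ℤ) : WithTop ℤ)

/-- The complement in affine space over `ℤ` of the hypersurface `h = 0`. -/
noncomputable abbrev Complement {N : ℕ} (h : MvPolynomial (Fin N) ℤ) : Scheme.{0} :=
  Spec (CommRingCat.of (Localization.Away h))

theorem order_ne {F : ℂ → ℂ} {w : ℂ} {a : ℤ} (h : meromorphicOrderAt F w = ((a : ℤ) : WithTop ℤ)) :
    meromorphicOrderAt F⁻¹ w = ((-a : ℤ) : WithTop ℤ) := by
  rw [meromorphicOrderAt_inv, h]
  rfl

theorem isDevissage (T : HigherChow) (w : ℤ) :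
    IsDevissage True ℤ (fun X _ => T.Holds w X) where
  iso := by
    rintro X Y e g hg ⟨F, hF, χ, h1, h2⟩
    exact ⟨F, cont_iso e g hg.lft hg.qc hF, χ, h1.of_iso (fun i => T.iso w i e g hg), h2⟩
  empty := by
    intro X f hX
    refine ⟨fun _ => 1, cont_empty hX, 0, ?_, ?_⟩
    · exact Euler.of_subsingleton (fun i => T.empty w i X hX)
    · have h1 : meromorphicOrderAt (fun _ : ℂ => (1 : ℂ)) (w : ℂ) = 0 := by
        rw [meromorphicOrderAt_const]
        simp
      rw [h1]
      rfl
  closed := by
    rintro Z X U f i j hf hi hj hr ⟨F, hF, x, hx, hx'⟩ ⟨G, hG, u, hu, hu'⟩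
    obtain ⟨S⟩ := T.localization f i j hf hi hj hr w
    refine ⟨F * G⁻¹, cont_closed f hf.lft hf.qc i j hi hj hr hF hG, x - u, S.closed hx hu, ?_⟩
    rw [meromorphicOrderAt_mul (hF.1 w trivial) ((hG.1 w trivial).inv), hx', order_ne hu',
      ← WithTop.coe_add]
    congr 1
    ring
  total := by
    rintro Z X U f i j hf hi hj hr ⟨F, hF, x, hx, hx'⟩ ⟨G, hG, u, hu, hu'⟩
    obtain ⟨S⟩ := T.localization f i j hf hi hj hr w
    refine ⟨F * G, cont_total f hf.lft hf.qc i j hi hj hr hF hG, x + u, S.total hx hu, ?_⟩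
    rw [meromorphicOrderAt_mul (hF.1 w trivial) (hG.1 w trivial), hx', hu', ← WithTop.coe_add]
    congr 1
    ring

/-- Let `w` be an integer, for example `w = 0`. The conjecture at `w` (meromorphic continuation,
finite ranks and the formula for the order of the zeta function at `w`) holds for all arithmetic
schemes if and only if it holds for the complements in the affine spaces over `ℤ` of the unions of
finitely many hypersurfaces `x_a x_b = x_c`, `x_a + x_b = x_c`, `x_a = 1`. If this is so for `w = 0`,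
then the order at `0` of every meromorphic continuation to `ℂ` of the zeta function of a scheme of
finite type and separated over `ℤ` is minus the alternating sum of the ranks of the groups
`CH_0(X, i)`. -/
theorem result (T : HigherChow) :
    (∀ w : ℤ,
      (∀ (X : Scheme.{0}) (f : X ⟶ Spec (CommRingCat.of ℤ)), FT True ℤ f → T.Holds w X) ↔
      (∀ (N : ℕ) (h : MvPolynomial (Fin N) ℤ), h ∈ Submonoid.closure {g | IsGate {1} g} →
        T.Holds w (Complement h))) ∧
    ((∀ (N : ℕ) (h : MvPolynomial (Fin N) ℤ), h ∈ Submonoid.closure {g | IsGate {1} g} →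
        T.Holds 0 (Complement h)) →
      ∀ (X : Scheme.{0}) (f : X ⟶ Spec (CommRingCat.of ℤ)), FT True ℤ f →
        ∀ F : ℂ → ℂ, IsCont X F → ∃ χ : ℤ, Euler (fun i => T.CH 0 i X) χ ∧
          meromorphicOrderAt F 0 = ((-χ : ℤ) : WithTop ℤ)) := by
  have hall : ∀ w : ℤ, (∀ (N : ℕ) (h : MvPolynomial (Fin N) ℤ),
      h ∈ Submonoid.closure {g | IsGate {1} g} → T.Holds w (Complement h)) →
      ∀ (X : Scheme.{0}) (f : X ⟶ Spec (CommRingCat.of ℤ)), FT True ℤ f → T.Holds w X :=
    fun w h X f hf => all_of_gates closure_one_int (Set.mem_singleton 1) (isDevissage T w)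
      (fun N h' hh' => h N h' hh') f hf
  refine ⟨fun w => ⟨fun h N h' _ => h _ (str ℤ _) (ft_gate h'), hall w⟩,
    fun h X f hf F hF => ?_⟩
  obtain ⟨G, hG, χ, h1, h2⟩ := hall 0 h X f hf
  refine ⟨χ, h1, ?_⟩
  rw [order_unique hF hG 0, ← h2]
  norm_num

end Pool.Agent.Results.MP_f3836a_nt.GateComplements
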