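import Pool.Agent.TH652.GL.Sch

/-!
# The order of the zeta function of an arithmetic scheme at `s = 0` from the numbers of points

Let `𝒳 ⊆ ℙ^(n-1)` over `ℤ` be the projective scheme defined by a set `X` of homogeneous polynomials
with integral coefficients, `N_q` the number of its points over the field with `q` elements and

`ζ(𝒳, s) = exp (∑_p ∑_{k ≥ 1} N_{p^k} / (k p^{ks})) = ∏_x (1 - N(x)^{-s})⁻¹`.

For real `s₀`, `γ` and `T > 0` let

`S_γ(T) = - ∑_p ∑_{k ≥ 1} N_{p^k} / (k p^{k s₀}) · exp (i γ k log p / T) / Γ(1 + k log p / T)`;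

this series converges absolutely. We show that if `ζ(𝒳, s)` has a meromorphic continuation along the
half-line `[s₀, ∞)`, then for every `γ > π / 2`

`S_γ(T) = m (log T - Λ_γ) - log |l| + π i z + O(1 / T)`,

where `m` is the order and `l` the leading coefficient of `ζ(𝒳, s)` at `s₀`, and `z` is the number of
zeros minus the number of poles on `(s₀, ∞)`. In particular, for `s₀ = 0`, the order of `ζ(𝒳, s)` at
`s = 0`, the left hand side of the formula conjectured by Soulé, is the limit of `S_γ(T) / log T`, and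
the sum may be restricted to the finitely many prime powers up to `exp (exp (A T))` for a constant
`A > n`. No assumption on the scheme (regularity, flatness, reduction) or on the zeros is made.
-/

set_option autoImplicit false

open Filter Topology

namespace Pool.Agent.Results.MP_f3836a_nt.PointCountLaw

/-- The number of the points of the projective scheme defined by `X` over the field with `p ^ k`
elements, `k ≥ 1`: the number of the nonzero solutions with coordinates in this field, divided by the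
number of its nonzero elements. -/
noncomputable def numPoints {n : ℕ} (X : Set (MvPolynomial (Fin n) ℤ)) (p : Nat.Primes) (k : ℕ) :
    ℝ :=
  haveI : Fact (p : ℕ).Prime := ⟨p.2⟩
  (Nat.card {u : Fin n → GaloisField p k //
    u ≠ 0 ∧ ∀ f ∈ X, MvPolynomial.aeval u f = 0} : ℝ) / ((p : ℝ) ^ k - 1)

/-- `ζ(𝒳, s) = exp (∑ N_{p^k} p^{-ks} / k)`, the sum over the pairs `(p, k) = (x.1, x.2 + 1)`. -/
noncomputable def zeta {n : ℕ} (X : Set (MvPolynomial (Fin n) ℤ)) (s : ℂ) : ℂ :=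
  Complex.exp (∑' x : Nat.Primes × ℕ,
    (numPoints X x.1 (x.2 + 1) : ℂ) * ((x.1 : ℂ) ^ (-s)) ^ (x.2 + 1) / (x.2 + 1))

/-- `Z` is meromorphic at the points of the half-line `[s₀, ∞)` and equal to `ζ(𝒳, s)` on some right
half-plane. -/
def IsContinuation {n : ℕ} (X : Set (MvPolynomial (Fin n) ℤ)) (s₀ : ℝ) (Z : ℂ → ℂ) : Prop :=
  (∀ x : ℝ, s₀ ≤ x → MeromorphicAt Z (x : ℂ)) ∧ ∃ σ₁ : ℝ, ∀ s : ℂ, σ₁ < s.re → Z s = zeta X s

/-- The term of `S_γ(T)` for the prime `p = x.1` and the exponent `k = x.2 + 1`. -/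
noncomputable def term {n : ℕ} (X : Set (MvPolynomial (Fin n) ℤ)) (s₀ γ T : ℝ)
    (x : Nat.Primes × ℕ) : ℂ :=
  ((-(numPoints X x.1 (x.2 + 1) * ((x.1 : ℝ) ^ (-s₀)) ^ (x.2 + 1) /
    ((x.2 + 1) * Real.Gamma (1 + (x.2 + 1) * Real.log x.1 / T))) : ℝ) : ℂ) *
    Complex.exp ((γ * ((x.2 + 1) * Real.log x.1 / T) : ℝ) * Complex.I)

/-- The prime powers `p ^ k`, `k = x.2 + 1`, with `log (p ^ k) ≤ e^{A T}`. -/
def cutoff (A T : ℝ) : Set (Nat.Primes × ℕ) :=
  {x | (x.2 + 1) * Real.log x.1 ≤ Real.exp (A * T)}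

/-- `Λ_γ = ∫_0^∞ (e^{-t} - e^{iγt} / Γ(1 + t)) dt / t`. -/
noncomputable def Lam (γ : ℝ) : ℂ := ∫ t in Set.Ioi (0 : ℝ),
  (Complex.exp (-(t : ℂ)) - Complex.exp ((γ * t : ℝ) * Complex.I) *
    ((Real.Gamma (1 + t))⁻¹ : ℝ)) / t

/-- The number of the zeros minus the number of the poles of `Z` on `(s₀, ∞)`, with
multiplicities. -/
noncomputable def excess (Z : ℂ → ℂ) (s₀ : ℝ) : ℤ :=
  ∑ᶠ σ ∈ Set.Ioi s₀, (meromorphicOrderAt Z (σ : ℂ)).untop₀

/-- `Σ(T) = m (log T - Λ_γ) - log |l| + π i z + O(1 / T)`, and `Σ(T) / log T` tends to `m`. -/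
def Law (Sg : ℝ → ℂ) (γ : ℝ) (m : ℤ) (l : ℝ) (z : ℤ) : Prop :=
  ((fun T : ℝ => Sg T - (m * (Real.log T - Lam γ) - Real.log |l| + Real.pi * z * Complex.I))
    =O[atTop] (fun T : ℝ => 1 / T)) ∧
  Tendsto (fun T : ℝ => Sg T / Real.log T) atTop (𝓝 (m : ℂ))

theorem law_of {Sg Sg' : ℝ → ℂ} {γ : ℝ} {m : ℤ} {l : ℝ} {z : ℤ}
    (h : (fun T : ℝ => Sg T - (m * (Real.log T - Lam γ) - Real.log |l| +
      Real.pi * z * Complex.I)) =O[atTop] (fun T : ℝ => 1 / T)) (h' : ∀ T, Sg T = Sg' T) :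
    Law Sg' γ m l z := by
  have h1 := h.congr_left fun T => by rw [h' T]
  refine ⟨h1, TH652.GL.glim (L := Lam γ) (c := -Real.log |l| + Real.pi * z * Complex.I)
    (h1.congr_left fun T => by ring)⟩

/-- **The order and the leading coefficient of the zeta function of an arithmetic scheme at a real
point, in particular at `s = 0`, from the numbers of points over the finite fields.** -/
theorem result {n : ℕ} (X : Set (MvPolynomial (Fin n) ℤ)) (s₀ : ℝ) (Z : ℂ → ℂ)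
    (hZ : IsContinuation X s₀ Z) :
    (∀ γ T : ℝ, 0 < T → Summable (term X s₀ γ T)) ∧
    {σ : ℝ | s₀ ≤ σ ∧ meromorphicOrderAt Z (σ : ℂ) ≠ 0}.Finite ∧
    ∃ (m : ℤ) (l : ℝ), meromorphicOrderAt Z (s₀ : ℂ) = m ∧
      meromorphicTrailingCoeffAt Z (s₀ : ℂ) = l ∧ l ≠ 0 ∧
      ∀ γ : ℝ, Real.pi / 2 < γ →
        Law (fun T => ∑' x, term X s₀ γ T x) γ m l (excess Z s₀) ∧
        ∀ A : ℝ, 0 < A → n - s₀ < A → (∀ T : ℝ, (cutoff A T).Finite) ∧
          Law (fun T => ∑ᶠ x ∈ cutoff A T, term X s₀ γ T x) γ m l (excess Z s₀) := by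
  have E := TH652.GL.pdata X
  obtain ⟨hmer, σ₁, hσ⟩ := hZ
  have hlx : ∀ x : Nat.Primes × ℕ, (0 : ℝ) < x.1 := fun x => by exact_mod_cast x.1.2.pos
  have hF : ∀ s : ℂ, σ₁ < s.re → Z s = Complex.exp
      (W189.ML.ser TH652.GL.plam (TH652.GL.pc X) s) := by
    intro s hs
    rw [hσ s hs]
    unfold zeta W189.ML.ser
    congr 1
    refine tsum_congr fun x => ?_
    have hc : ((x.1 : ℝ) : ℂ) ≠ 0 := by exact_mod_cast (hlx x).ne'
    have e1 : (((x.1 : ℕ) : ℂ) ^ (-s)) ^ (x.2 + 1) =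
        Complex.exp (-(s * TH652.GL.plam x)) := by
      have h0 : ((x.1 : ℕ) : ℂ) = ((x.1 : ℝ) : ℂ) := by push_cast; rfl
      rw [h0, Complex.cpow_def_of_ne_zero hc, ← Complex.exp_nat_mul,
        ← Complex.ofReal_log (hlx x).le]
      congr 1
      unfold TH652.GL.plam
      push_cast
      ring
    rw [e1]
    unfold TH652.GL.pc
    push_cast
    have h1 : numPoints X x.1 (x.2 + 1) = TH652.GL.npts X x.1 (x.2 + 1) := rfl
    rw [h1]
    ring
  have hterm : ∀ γ T x, term X s₀ γ T x =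
      TH652.GL.gterm TH652.GL.plam (TH652.GL.pc X) s₀ γ T x := by
    intro γ T x
    unfold term TH652.GL.gterm
    rw [TH652.GL.exp_plam]
    unfold TH652.GL.pc TH652.GL.plam
    have h1 : numPoints X x.1 (x.2 + 1) = TH652.GL.npts X x.1 (x.2 + 1) := rfl
    rw [h1]
    congr 2
    rw [div_mul_eq_mul_div, div_div]
  have hfin : {σ : ℝ | s₀ ≤ σ ∧ meromorphicOrderAt Z (σ : ℂ) ≠ 0}.Finite :=
    (TH652.GL.glaw E hmer hF (show Real.pi / 2 < Real.pi by linarith [Real.pi_pos])).1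
  obtain ⟨m, l, hm, hl, hl0, -⟩ :=
    (TH652.GL.glaw E hmer hF (show Real.pi / 2 < Real.pi by linarith [Real.pi_pos])).2
  refine ⟨fun γ T hT => ?_, hfin, m, l, hm, hl, hl0, fun γ hγ => ?_⟩
  · refine (TH652.GL.gsummable E s₀ γ hT).congr fun x => ?_
    rw [hterm]
  obtain ⟨m', l', hm', hl', -, hO⟩ := (TH652.GL.glaw E hmer hF hγ).2
  have em : m' = m := by
    rw [hm] at hm'
    exact_mod_cast hm'.symm
  have el : l' = l := by
    rw [hl] at hl'
    exact_mod_cast hl'.symm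
  rw [em, el] at hO
  refine ⟨law_of hO fun T => tsum_congr fun x => (hterm γ T x).symm, fun A hA hA1 =>
    ⟨fun T => TH652.GL.pfin _, ?_⟩⟩
  have hcut := TH652.GL.gcut E s₀ γ hA hA1 TH652.GL.pfin
  refine law_of (Sg := fun T => ∑ᶠ x ∈ cutoff A T,
    TH652.GL.gterm TH652.GL.plam (TH652.GL.pc X) s₀ γ T x) ?_ fun T => ?_
  · refine (hO.sub hcut).congr_left fun T => ?_
    have e2 : (∑ᶠ i ∈ {i | TH652.GL.plam i ≤ Real.exp (A * T)},
        TH652.GL.gterm TH652.GL.plam (TH652.GL.pc X) s₀ γ T i) =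
        ∑ᶠ x ∈ cutoff A T, TH652.GL.gterm TH652.GL.plam (TH652.GL.pc X) s₀ γ T x := rfl
    rw [e2]
    change _ - (_ * (_ - Lam γ) - _ + Real.pi * excess Z s₀ * Complex.I) - _ = _
    ring
  · exact finsum_congr fun x => by rw [hterm]

end Pool.Agent.Results.MP_f3836a_nt.PointCountLaw
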