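import Pool.Agent.TH72.SR.Final

/-!
# Soulé's conjecture and base change to totally real fields in which all small primes split

If `X` is regular, connected, flat and projective over `ℤ`, then so is `X × Spec O_K` for every Galois
number field `K` in which the primes where `X` is not smooth split completely, and which meets the
algebraic closure of `ℚ` in the function field of `X` only in `ℚ`.
-/

set_option autoImplicit false

open NumberField Pool.Agent.TH965.St Pool.Agent.TH349.ORP Pool.Agent.TH72.SR

namespace Pool.Agent.Results.MP_f3836a_nt.SplitRegularBaseChange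

/-- `K` is a Galois number field with `K ∩ F = ℚ` in which all primes `p ≤ B` split completely (there
is an embedding of `K` in `ℚ_p`) -/
def Adm (B : ℕ) (F K : IntermediateField ℚ Qb) : Prop :=
  NumberField K ∧ IsGalois ℚ K ∧ K ⊓ F = ⊥ ∧
    ∀ (p : ℕ) (_ : Fact p.Prime), p ≤ B → Nonempty (K →+* ℚ_[p])

/-- The regular connected schemes `x`, flat and projective over `ℤ`, and the facts used about them. -/
structure Schemes where
  /-- the schemes -/
  X : Type
  /-- the algebraic closure of `ℚ` in the function field of `x` -/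
  fld : X → IntermediateField ℚ Qb
  /-- `x` is smooth over all primes `p > bad x` -/
  bad : X → ℕ
  /-- the assumptions (i) and (ii) of the question: `ζ(x, s)` continues to a neighbourhood of `s = 0`,
  the motivic cohomology groups `H^j(x, ℚ(d))` are finite dimensional and almost all zero -/
  ok : X → Prop
  /-- the order of `ζ(x, s)` at `s = 0` (for `x` with (i)) -/
  ord : X → ℤ
  /-- `∑ (-1)^(i+1) dim H^(2d-i)(x, ℚ(d))`, `d = dim x` (for `x` with (ii)) -/
  chi : X → ℤ
  /-- the scheme `x × Spec O_K` -/
  bc : X → IntermediateField ℚ Qb → X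
  /-- `fld x` is a number field -/
  nf : ∀ x, NumberField (fld x)
  /-- `x × Spec ℤ = x` -/
  bc_bot : ∀ x, bc x ⊥ = x
  /-- both sides of the formula for `x × Spec O_K` are given by the permutation characters -/
  additive : ∀ (x : X) (n n' : ℕ) (K : Fin n → IntermediateField ℚ Qb)
    (K' : Fin n' → IntermediateField ℚ Qb),
    (∀ a, Adm (bad x) (fld x) (K a) ∧ ok (bc x (K a))) →
    (∀ b, Adm (bad x) (fld x) (K' b) ∧ ok (bc x (K' b))) →
    (∀ g : GQ, ∑ a, perm (K a) g = ∑ b, perm (K' b) g) →
    ∑ a, ord (bc x (K a)) = ∑ b, ord (bc x (K' b)) ∧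
    ∑ a, chi (bc x (K a)) = ∑ b, chi (bc x (K' b))

/-- Soulé's formula for `x` -/
def Schemes.Formula (T : Schemes) (x : T.X) : Prop := T.ord x = T.chi x

/-- the assumptions (i) and (ii) hold for `x × Spec O_K`, all `K` with `Adm (bad x) (fld x) K` -/
def Schemes.Good (T : Schemes) (x : T.X) : Prop :=
  ∀ K, Adm (T.bad x) (T.fld x) K → T.ok (T.bc x K)

/-- for every `x` smooth over the primes `p > N`, with constants in `F`: Soulé's formula for the
schemes `x × Spec O_K`, `K` one of `K₁, ..., K_r`, implies Soulé's formula for `x` -/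
def Suffices (N : ℕ) (F : IntermediateField ℚ Qb) {r : ℕ} (K : Fin r → IntermediateField ℚ Qb) :
    Prop :=
  ∀ (T : Schemes) (x : T.X), T.bad x ≤ N → T.fld x ≤ F → T.Good x →
    (∀ a, T.Formula (T.bc x (K a))) → T.Formula x

theorem adm_of {N B : ℕ} {F F' K : IntermediateField ℚ Qb} (h : SplitReal N F K) (hB : B ≤ N)
    (hF : F' ≤ F) : Adm B F' K := by
  refine ⟨h.1, h.2.1, ?_, fun p hp hpB => h.2.2.2.2.2.2 p hp (hpB.trans hB)⟩
  rw [eq_bot_iff, ← h.2.2.2.1]
  exact inf_le_inf_left K hF

theorem adm_bot (B : ℕ) (F : IntermediateField ℚ Qb) : Adm B F ⊥ := by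
  refine ⟨nf_bot, ?_, bot_inf_eq F, fun p hp _ => padic_emb bot_le p le_rfl⟩
  have h : (⊥ : IntermediateField ℚ Qb).fixingSubgroup.Normal := by
    rw [IntermediateField.fixingSubgroup_bot]; infer_instance
  exact (InfiniteGalois.normal_iff_isGalois ⊥).1 h

theorem main (T : Schemes) (x : T.X) (hx : T.Good x) {n n' : ℕ}
    {K : Fin n → IntermediateField ℚ Qb} {K' : Fin n' → IntermediateField ℚ Qb}
    (h1 : ∀ a, Adm (T.bad x) (T.fld x) (K a)) (h2 : ∀ b, Adm (T.bad x) (T.fld x) (K' b))
    (h5 : ∀ g : GQ, ∑ a, perm (K a) g = 1 + ∑ b, perm (K' b) g)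
    (h3 : ∀ a, T.Formula (T.bc x (K a))) (h4 : ∀ b, T.Formula (T.bc x (K' b))) :
    T.Formula x := by
  let K1 : Fin (n' + 1) → IntermediateField ℚ Qb := Fin.cons ⊥ K'
  have a1 : ∀ b, Adm (T.bad x) (T.fld x) (K1 b) := by
    intro b
    refine Fin.cases ?_ (fun i => ?_) b
    · exact adm_bot _ _
    · exact h2 i
  obtain ⟨b1, b2⟩ := T.additive x n (n' + 1) K K1 (fun a => ⟨h1 a, hx _ (h1 a)⟩)
    (fun b => ⟨a1 b, hx _ (a1 b)⟩) (by
    intro g
    rw [Fin.sum_univ_succ, h5 g]
    have : perm (K1 0) g = 1 := perm_bot g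
    rw [this]
    rfl)
  rw [Fin.sum_univ_succ] at b1 b2
  have e0 : K1 0 = ⊥ := rfl
  rw [e0, T.bc_bot] at b1 b2
  have c1 : ∑ a, T.ord (T.bc x (K a)) = ∑ a, T.chi (T.bc x (K a)) :=
    Finset.sum_congr rfl fun a _ => h3 a
  have c2 : ∑ b : Fin n', T.ord (T.bc x (K1 b.succ)) = ∑ b : Fin n', T.chi (T.bc x (K1 b.succ)) :=
    Finset.sum_congr rfl fun b _ => h4 b
  unfold Schemes.Formula
  omega

/-- **Soulé's conjecture and split base change.** Let `N ≥ 0` and let `F` be a number field. There are
finitely many Galois number fields `K₁, ..., K_r`, totally real, of degree at least `N`, with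
commutative Galois groups of exponent `2` or `3`, with `K_a ∩ F = ℚ`, in which all primes `p ≤ N` split
completely, such that for every regular connected `x`, flat and projective over `ℤ`, smooth over the
primes `p > N`, with constants in `F`: Soulé's formula for the (again regular and connected) schemes
`x × Spec O_{K_a}` implies Soulé's formula for `x`. Hence Soulé's conjecture for the schemes
`x × Spec O_K`, `K` as above for a bound at least `N` and at least `bad x`, implies the conjecture for
all `x`. -/
theorem result (N : ℕ) :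
    (∀ F : IntermediateField ℚ Qb, NumberField F → ∃ (r : ℕ) (K : Fin r → IntermediateField ℚ Qb),
      (∀ a, SplitReal N F (K a)) ∧ Suffices N F K) ∧
    ∀ T : Schemes,
      (∀ x K, SplitReal (max N (T.bad x)) (T.fld x) K → T.ok (T.bc x K) → T.Formula (T.bc x K)) →
      ∀ x, T.Good x → T.Formula x := by
  have key : ∀ (N : ℕ) (F : IntermediateField ℚ Qb), NumberField F →
      ∃ (r : ℕ) (K : Fin r → IntermediateField ℚ Qb), (∀ a, SplitReal N F (K a)) ∧
        Suffices N F K := by
    intro N F hF
    obtain ⟨n, K, n', K', h3, h4, h5⟩ := trivial_character N F hF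
    refine ⟨n + n', Fin.append K K', fun a => ?_, ?_⟩
    · refine Fin.addCases (fun i => ?_) (fun i => ?_) a
      · rw [Fin.append_left]; exact h3 i
      · rw [Fin.append_right]; exact h4 i
    · intro T x hB hF' hx hc
      refine main T x hx (fun a => adm_of (h3 a) hB hF') (fun b => adm_of (h4 b) hB hF') h5
        (fun a => ?_) (fun b => ?_)
      · have := hc (Fin.castAdd n' a)
        rwa [Fin.append_left] at this
      · have := hc (Fin.natAdd n b)
        rwa [Fin.append_right] at this
  refine ⟨key N, fun T H x hx => ?_⟩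
  obtain ⟨r, K, h1, h2⟩ := key (max N (T.bad x)) (T.fld x) (T.nf x)
  exact h2 T x (le_max_right _ _) le_rfl hx fun a =>
    H x (K a) (h1 a) (hx _ (adm_of (h1 a) (le_max_right _ _) le_rfl))

end Pool.Agent.Results.MP_f3836a_nt.SplitRegularBaseChange
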