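import Pool.Agent.TH452.TC.Gal5

/-!
Soulé's conjecture for base changes: reduction to the totally complex fields and one more field.
-/

set_option autoImplicit false

namespace Pool.Agent.Results.MP_f3836a_nt.TotallyComplexBaseChange

open NumberField

/-- the number fields inside a fixed algebraic closure of `ℚ` -/
abbrev NF : Type := {K : IntermediateField ℚ (AlgebraicClosure ℚ) // NumberField K}

/-- the value at `g` of the permutation character of `Gal(Q̄/ℚ)` on the embeddings of `K` -/
noncomputable def perm (K : NF) (g : Gal(AlgebraicClosure ℚ/ℚ)) : ℤ :=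
  Nat.card {φ : K.1 →ₐ[ℚ] AlgebraicClosure ℚ // ∀ x, g (φ x) = φ x}

/-- `e` vanishes on every linear relation between permutation characters of number fields -/
def Additive (e : NF → ℤ) : Prop :=
  ∀ n : NF →₀ ℤ, (∀ g, n.sum (fun K k => k * perm K g) = 0) → n.sum (fun K k => k * e K) = 0

/-- number of real places -/
noncomputable def r₁ (K : NF) : ℕ := haveI := K.2; InfinitePlace.nrRealPlaces K.1

/-- `K` has no real place -/
def TotComplex (K : NF) : Prop := r₁ K = 0

/-- the field of rational numbers -/
noncomputable def rat : NF := ⟨⊥, (Pool.Agent.TH965.St.nf_iff _).2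
  (inferInstance : FiniteDimensional ℚ (⊥ : IntermediateField ℚ (AlgebraicClosure ℚ)))⟩

open Pool.Agent.TH452.TC Pool.Agent.TH965.St

theorem main (D : NF → ℤ) (hD : Additive D) (hTC : ∀ K, TotComplex K → D K = 0) (K : NF) :
    D K = r₁ K * D rat := by
  have hmu : Mu (fun K : NF => Multiplicative.ofAdd (D K)) := by
    intro n hn
    have h1 := hD n hn
    have h2 : n.prod (fun K k => (Multiplicative.ofAdd (D K)) ^ k) =
        Multiplicative.ofAdd (n.sum (fun K k => k * D K)) := by
      unfold Finsupp.prod Finsupp.sum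
      rw [ofAdd_sum]
      refine Finset.prod_congr rfl fun K _ => ?_
      show Multiplicative.ofAdd (D K) ^ n K = Multiplicative.ofAdd (n K * D K)
      rw [← ofAdd_zsmul, smul_eq_mul]
    rw [h2, h1, ofAdd_zero]
  have hT : ∀ z : Multiplicative ℤ, z ^ 2 ∈ (⊥ : Subgroup (Multiplicative ℤ)) → z ∈
      (⊥ : Subgroup (Multiplicative ℤ)) := by
    intro z hz
    rw [Subgroup.mem_bot] at hz ⊢
    have h1 : (2 : ℕ) • Multiplicative.toAdd z = 0 := by
      rw [← toAdd_pow, hz, toAdd_one]
    have h2 : Multiplicative.toAdd z = 0 := by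
      rw [two_nsmul] at h1
      omega
    rw [← ofAdd_toAdd z, h2, ofAdd_zero]
  have hTC' : ∀ F : NF, (∃ _ : NumberField F.1, IsTotallyComplex F.1) →
      Multiplicative.ofAdd (D F) ∈ (⊥ : Subgroup (Multiplicative ℤ)) := by
    rintro F ⟨hF, hF'⟩
    rw [hTC F (IsTotallyComplex.nrRealPlaces_eq_zero F.1), Subgroup.mem_bot, ofAdd_zero]
  have h := main_mu hmu hT hTC' rat rfl K (r₁ K) (fun _ => rfl)
  rw [Subgroup.mem_bot, div_eq_one, ← ofAdd_nsmul] at h
  have h3 := Multiplicative.ofAdd.injective h
  rw [h3, nsmul_eq_mul]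

/-- Let `e`, `χ` be additive on relations between permutation characters, and equal for all totally
complex fields. Then `e K - χ K = r₁(K) (e ℚ - χ ℚ)` for every number field `K`, and if `e = χ` for one
field with a real place, then for all fields. -/
theorem result (e χ : NF → ℤ) (he : Additive e) (hχ : Additive χ)
    (hTC : ∀ K, TotComplex K → e K = χ K) :
    (∀ K, e K - χ K = r₁ K * (e rat - χ rat)) ∧
    (∀ K₀, ¬ TotComplex K₀ → ((∀ K, e K = χ K) ↔ e K₀ = χ K₀)) := by
  have hD : Additive (fun K => e K - χ K) := by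
    intro n hn
    have h1 := he n hn
    have h2 := hχ n hn
    have : n.sum (fun K k => k * (e K - χ K)) =
        n.sum (fun K k => k * e K) - n.sum (fun K k => k * χ K) := by
      unfold Finsupp.sum
      rw [← Finset.sum_sub_distrib]
      exact Finset.sum_congr rfl fun K _ => mul_sub _ _ _
    rw [this, h1, h2, sub_zero]
  have key : ∀ K, e K - χ K = r₁ K * (e rat - χ rat) := fun K =>
    main (fun K => e K - χ K) hD (fun K hK => by rw [hTC K hK, sub_self]) K
  refine ⟨key, fun K₀ hK₀ => ⟨fun h => h K₀, fun h K => ?_⟩⟩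
  have h1 := key K₀
  rw [h, sub_self] at h1
  have h2 : e rat - χ rat = 0 := by
    rcases mul_eq_zero.1 h1.symm with h3 | h3
    · exact absurd (by exact_mod_cast h3 : r₁ K₀ = 0) hK₀
    · exact h3
  have h3 := key K
  rw [h2, mul_zero] at h3
  omega

end Pool.Agent.Results.MP_f3836a_nt.TotallyComplexBaseChange
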